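import Pool.Agent.Q149.WA.Par

/-!
# Alperin's weight conjecture for odd primes is a statement about parity

`Wr G` is the wreath product of `G` with a group of order two, `WrN j G` the `j`-fold iterated one.
For odd `p` the numbers `x` of `p`-regular classes of `G` and `y` of `G`-orbits of `p`-weights
satisfy the same recursion: those of `Wr G` are `(x² + 3x)/2` and `(y² + 3y)/2`. So a difference
`x - y` exactly divisible by `2^(a+1)` becomes one exactly divisible by `2^a`.
-/

set_option autoImplicit false

namespace Pool.Agent.Results.MP_78bba1_al.ParityDecides

open Pool.Agent.Y63.AWC (numWeights numRegularClasses)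
open Pool.Agent.Q90.WR (Wr WrN)
open Pool.Agent.Q149.WA

/-- Let `p` be an odd prime. `numRegularClasses p G` is the number of classes of `p`-regular
elements of `G`, that is, of simple `kG`-modules, and `numWeights p G` is the number of `G`-orbits
of `p`-weights.
(1) Both numbers of `Wr G = G ≀ C₂` are `(x² + 3x)/2` where `x` is the number for `G`.
(2) For every finite group `G` the two numbers are equal if and only if for all `j` with
`2^j ≤ |G| · #{p-subgroups of G}` the two numbers of the `j`-fold iterated wreath product of `G`
with `C₂` have the same parity.
(3) For every class `C` of finite groups closed under `G ↦ G ≀ C₂` (for instance the class of all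
finite groups), the two numbers are equal for all `G` in `C` if and only if they have the same
parity for all `G` in `C`. -/
theorem result (p : ℕ) [Fact p.Prime] (hp2 : p ≠ 2) :
    (∀ (G : Type) [Group G] [Finite G],
      2 * numRegularClasses p (Wr G) = numRegularClasses p G ^ 2 + 3 * numRegularClasses p G ∧
      2 * numWeights p (Wr G) = numWeights p G ^ 2 + 3 * numWeights p G) ∧
    (∀ (G : Type) [Group G] [Finite G], numRegularClasses p G = numWeights p G ↔
      ∀ j : ℕ, 2 ^ j ≤ Nat.card G * Nat.card {Q : Subgroup G // IsPGroup p Q} →
        numRegularClasses p (WrN j G) ≡ numWeights p (WrN j G) [MOD 2]) ∧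
    (∀ C : (G : Type) → Group G → Prop,
      (∀ (G : Type) [i : Group G] [Finite G], C G i → C (Wr G) inferInstance) →
      ((∀ (G : Type) [i : Group G] [Finite G], C G i →
          numRegularClasses p G = numWeights p G) ↔
        ∀ (G : Type) [i : Group G] [Finite G], C G i →
          numRegularClasses p G ≡ numWeights p G [MOD 2])) :=
  ⟨fun _ _ _ => ⟨numRegularClasses_wr (Fact.out : p.Prime) hp2, numWeights_wr hp2⟩,
    fun G _ _ => one_group hp2 G, fun C hC => all_groups hp2 C hC⟩

end Pool.Agent.Results.MP_78bba1_al.ParityDecides
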