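import Pool.Agent.Q149.WB.Red

/-!
# The blockwise Alperin weight conjecture for odd primes: parity or size decides

Let `p` be an odd prime. For a block `B` of a finite group `G` let `l(B)` be the number of simple
modules and `w(B)` the number of `G`-classes of weights of `B`. If these two numbers have the same
parity for all blocks of all finite groups (without normal subgroups of index `p` and without
non-trivial normal `p`-subgroups), then they are equal for all blocks of all finite groups; also each
of the inequalities `l(B) ≤ w(B)` and `w(B) ≤ l(B)` follows from its approximate form, with a factor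
`K |G|_p ^ ε`.

Proof. For `z` in the centre of `F[G]` let `l(z)` be the number of the simple modules on which `z` does
not act as a nilpotent operator, and `w(z)` the number of the classes of weights whose blocks do not
vanish at `z`. For the element `z ⊗ z` of the centre of `F[G ≀ C₂]` (supported on the base group)
both numbers satisfy the recursion `2 l(z ⊗ z) = l(z)² + 3 l(z)`, `2 w(z ⊗ z) = w(z)² + 3 w(z)`. The
numbers `l(B)` and `w(B)` are the numbers `l(z)` and `w(z)` of an element `z` which separates `B` from
the other blocks, and `l(z)` is the sum of the `l(B)` over the blocks `B` with `B(z) ≠ 0`. A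
difference exactly divisible by `2^(a+1)` becomes one exactly divisible by `2^a`, and a quotient
greater than one grows faster than every small power of `|G|_p`.
-/

set_option autoImplicit false

namespace Pool.Agent.Results.MP_78bba1_al.ParityDecidesBlocks

open Pool.Agent.Y63.NV (IsBlock numIrrBlock numWtBlock BAWC Reduced bawc_strong Closed pgroup_top)
open Pool.Agent.Y63.AWC (pSubgroupSetoid)
open Pool.Agent.Q90.WR (Wr WrN instGroupWrN)
open Pool.Agent.Q149.WB (pp')

/-- `w(B)`: the number of `G`-classes of weights of the block `B` of `G`; the sum is over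
representatives of the classes of `p`-subgroups `Q`. -/
noncomputable def numWeightsBlock (p : ℕ) {F : Type} [Field F] (red : integralClosure ℤ ℂ →+* F)
    {G : Type} [Group G] (B : (G → F) → F) : ℕ :=
  ∑ᶠ c : Quotient (pSubgroupSetoid p G), numWtBlock p red c.out.1 B

/-- The `p`-part of the order of `G`. -/
noncomputable def pPart (p : ℕ) (G : Type) : ℕ := p ^ (Nat.card G).factorization p

/-- The numbers `l(B)` and `w(B)` have the same parity for all blocks `B` of `G`. -/
def SameParity (p : ℕ) {F : Type} [Field F] (red : integralClosure ℤ ℂ →+* F) (G : Type)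
    [Group G] : Prop :=
  ∀ B : (G → F) → F, IsBlock B → numIrrBlock B ≡ numWeightsBlock p red B [MOD 2]

/-- For every `ε > 0` there is a `K` such that `x ≤ K |G|_p ^ ε y` for all blocks of all groups in the
class `C`, where `x` and `y` are numbers attached to blocks. -/
def ApproxLe (p : ℕ) (F : Type) [Field F] (C : (G : Type) → Group G → Prop)
    (x y : (G : Type) → [Group G] → ((G → F) → F) → ℕ) : Prop :=
  ∀ ε : ℝ, 0 < ε → ∃ K : ℝ, ∀ (G : Type) [i : Group G] [Finite G], C G i →
    ∀ B : (G → F) → F, IsBlock B → (x G B : ℝ) ≤ K * (pPart p G : ℝ) ^ ε * y G B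

/-- **The blockwise weight conjecture for odd primes: parity or size decides.** Let `p` be an odd
prime.
(1) `l(B) = w(B)` for all blocks `B` of all finite groups if and only if `l(B)` and `w(B)` have the
same parity for all blocks `B` of all finite groups without normal subgroups of index `p` and without
non-trivial normal `p`-subgroups.
(2) For every class `C` of finite groups closed under `G ↦ G ≀ C₂`: `l(B) = w(B)` for all blocks of
the groups in `C` if and only if the parities agree for all blocks of the groups in `C`; and
`l(B) ≤ w(B)`, or `w(B) ≤ l(B)`, for all these blocks if and only if this holds approximately.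
(3) For one group `G`: `l(B) = w(B)` for all blocks of `G` if the parities agree for all blocks of the
iterated wreath products `WrN j G` of `G` with `C₂`, `2 ^ j ≤ |G| s` with the number `s` of
`p`-subgroups of `G`. -/
theorem result (p : ℕ) [Fact p.Prime] (hp2 : p ≠ 2) (F : Type) [Field F] [IsAlgClosed F]
    [CharP F p] (red : integralClosure ℤ ℂ →+* F) :
    ((∀ (G : Type) [Group G] [Finite G], BAWC p red G) ↔
      ∀ (G : Type) [Group G] [Finite G], Reduced p G → SameParity p red G) ∧
    (∀ C : (G : Type) → Group G → Prop,
      (∀ (G : Type) [i : Group G] [Finite G], C G i → C (Wr G) inferInstance) →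
      ((∀ (G : Type) [i : Group G] [Finite G], C G i → BAWC p red G) ↔
        ∀ (G : Type) [i : Group G] [Finite G], C G i → SameParity p red G) ∧
      ((∀ (G : Type) [i : Group G] [Finite G], C G i → ∀ B : (G → F) → F, IsBlock B →
          numIrrBlock B ≤ numWeightsBlock p red B) ↔
        ApproxLe p F C (fun _ _ B => numIrrBlock B) (fun _ _ B => numWeightsBlock p red B)) ∧
      ((∀ (G : Type) [i : Group G] [Finite G], C G i → ∀ B : (G → F) → F, IsBlock B →
          numWeightsBlock p red B ≤ numIrrBlock B) ↔
        ApproxLe p F C (fun _ _ B => numWeightsBlock p red B) (fun _ _ B => numIrrBlock B))) ∧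
    (∀ (G : Type) [Group G] [Finite G],
      (∀ j : ℕ, 2 ^ j ≤ Nat.card G * Nat.card {Q : Subgroup G // IsPGroup p Q} →
        SameParity p red (WrN j G)) → BAWC p red G) := by
  have hpar : ∀ C : (G : Type) → Group G → Prop,
      (∀ (G : Type) [i : Group G] [Finite G], C G i → C (Wr G) inferInstance) →
      ((∀ (G : Type) [i : Group G] [Finite G], C G i → BAWC p red G) ↔
        ∀ (G : Type) [i : Group G] [Finite G], C G i → SameParity p red G) := by
    intro C hC
    constructor
    · intro h G _ _ hG B hB
      rw [h G hG B hB]
      rfl
    · intro h G _ _ hG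
      exact Pool.Agent.Q149.WB.bawc_of_parity red hp2 G fun j _ =>
        h (WrN j G) (Pool.Agent.Q149.WB.closed_WrN C hC j G hG)
  refine ⟨?_, fun C hC => ⟨hpar C hC, ?_, ?_⟩, fun G _ _ h =>
    Pool.Agent.Q149.WB.bawc_of_parity red hp2 G h⟩
  · constructor
    · intro h G _ _ _ B hB
      rw [h G B hB]
      rfl
    · intro h
      have hX : Closed p (fun (H : Type) (_ : Group H) => True) :=
        ⟨fun _ _ _ _ _ _ => trivial, fun _ _ _ _ => trivial, fun _ _ _ _ _ _ => trivial⟩
      have h1 := (hpar (fun G i => Finite G ∧ @Reduced p G i) (fun G _ _ hG =>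
        ⟨inferInstance, Pool.Agent.Q149.WB.reduced_wr hp2 hG.2⟩)).2 (fun G _ _ hG => h G hG.2)
      intro G _ _
      exact (bawc_strong red (fun _ _ => True) hX).1 (fun H _ _ _ hR => h1 H ⟨inferInstance, hR⟩)
        G ⊤ trivial (pgroup_top p G)
  · constructor
    · intro h ε hε
      exact ⟨1, fun G _ _ hG B hB => Pool.Agent.Q149.WB.self_le G hε (h G hG B hB)⟩
    · intro h G _ _ hG B hB
      refine Pool.Agent.Q149.WB.irr_le_one red hp2 G (fun ε hε => ?_) B hB
      obtain ⟨K, hK⟩ := h ε hε
      exact ⟨K, fun j B hB => hK (WrN j G) (Pool.Agent.Q149.WB.closed_WrN C hC j G hG) B hB⟩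
  · constructor
    · intro h ε hε
      exact ⟨1, fun G _ _ hG B hB => Pool.Agent.Q149.WB.self_le G hε (h G hG B hB)⟩
    · intro h G _ _ hG B hB
      refine Pool.Agent.Q149.WB.wts_le_one red hp2 G (fun ε hε => ?_) B hB
      obtain ⟨K, hK⟩ := h ε hε
      exact ⟨K, fun j B hB => hK (WrN j G) (Pool.Agent.Q149.WB.closed_WrN C hC j G hG) B hB⟩

end Pool.Agent.Results.MP_78bba1_al.ParityDecidesBlocks
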